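import Pool.Agent.Shared.RealForcing.Bridge

/-! The Menger property in the quotient models: using it and proving it. -/

namespace Pool.Agent.Lib.MP_6245c4_gt

open Pool.Agent.Lib.MP_2739cb_lc Pool.Agent.Shared.RealForcing Set Cardinal

variable {P : Type} [Preorder P] {U : GU P}

theorem ex_bound {ι : Type} [Finite ι] {Φ : ι → ℕ → GU P → Prop} [∀ i m, Dec (Φ i m)]
    (hm : ∀ i m m' U, m ≤ m' → Φ i m U → Φ i m' U) (h : ∀ i, Ex (Φ i) U) :
    Ex (fun m U => ∀ i, Φ i m U) U := by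
  classical
  have := Fintype.ofFinite ι
  have key : ∀ t : Finset ι, Ex (fun m U => ∀ i : t, Φ i m U) U := by
    intro t
    induction t using Finset.induction_on with
    | empty => exact Ex.intro 0 fun i => absurd i.2 (Finset.notMem_empty _)
    | insert a t _ ih =>
      have h1 := h a
      clear h
      revert h1
      refine Ex.elim U ih fun U m h2 h1 => ?_
      revert h2
      refine Ex.elim U h1 fun U m' h1 h2 => Ex.intro (max m m') fun i => ?_
      rcases Finset.mem_insert.1 i.2 with h | h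
      · rw [h]; exact hm _ _ _ _ (le_max_right _ _) h1
      · exact hm _ _ _ _ (le_max_left _ _) (h2 ⟨i, h⟩)
  exact Ex.elim U (key Finset.univ) fun U m h => Ex.intro m fun i => h ⟨i, Finset.mem_univ i⟩

variable [OrderTop P]

theorem ex_sub_of_finite {ι : Type} (A : ι → Nm P) (g : ι → GU P → Prop) [∀ i, Dec (g i)]
    (r : ι → ℕ) (F : Nm P) (h1 : IsFinite (El U) (cl U om) (cl U F))
    (h2 : Sub (El U) (cl U F) (cl U (setNm A g))) :
    Ex (fun m U => Sub (El U) (cl U F) (cl U (setNm A fun i U => r i ≤ m ∧ g i U))) U := by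
  obtain ⟨N, hN, h1⟩ := h1
  obtain ⟨N, rfl⟩ := cl_surj N
  revert h1 h2
  refine wlog_nat N U hN fun U n e h2 h1 => ?_
  rw [e] at h1
  obtain ⟨τ, hτ⟩ := exists_listing F (b := n) (ι := Fin n) (by simp)
  have h3 := ex_bound (U := U) (Φ := fun (i : Fin n) m U => El U (cl U (τ i)) (cl U F) →
      El U (cl U (τ i)) (cl U (setNm A fun i U => r i ≤ m ∧ g i U)))
    (fun i m m' U hm h h' => wlog_set _ _ _ U (h h') fun U j hj e =>
      e ▸ el_setNm A j ⟨hj.1.trans hm, hj.2⟩)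
    (fun i => by
      by_cases h : El U (cl U (τ i)) (cl U F)
      · exact wlog_set _ _ _ U (h2 _ h) fun U j hj e =>
          Ex.intro (r j) fun _ => e ▸ el_setNm A j ⟨le_rfl, hj⟩
      · exact Ex.intro 0 fun h' => absurd h' h)
  clear e h2
  revert h1
  refine Ex.elim U h3 fun U m h3 h1 => Ex.intro m fun z hz => ?_
  obtain ⟨z, rfl⟩ := cl_surj z
  have h4 := hτ U z h1 hz
  clear h1
  revert hz h3
  exact Ex.elim U h4 fun U i e h3 hz => e ▸ h3 i (e ▸ hz)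

@[elab_as_elim]
theorem wlog_seq {Φ : GU P → Prop} (x z : Nm P) (a : ℕ → Nm P) (U : GU P)
    (h : App (El U) (cl U (seqNm a)) (cl U x) (cl U z)) [Dec Φ]
    (H : ∀ U n, cl U x = cl U (nn n) → cl U z = cl U (a n) → Φ U) : Φ U :=
  wlog_rel x z nn a (fun _ _ => True) U h fun U i _ => H U i

/-- The sequence `b` lists a base of `τ`. -/
def BaseSeq (τ : Nm P) (b : ℕ → Nm P) (U : GU P) : Prop :=
  ∀ V x, El U V (cl U τ) → El U x V → ∃ n B, App (El U) (cl U (seqNm b)) n B ∧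
    El U B (cl U τ) ∧ El U x B ∧ Sub (El U) B V

instance (τ : Nm P) (b : ℕ → Nm P) : Dec (no_index fun U => BaseSeq τ b U) := by
  unfold BaseSeq; infer_instance

theorem exists_baseSeq (τ : Nm P) :
    ∃ b, ∀ U, SecondCountable (El U) (cl U om) (cl U τ) → BaseSeq τ b U := by
  obtain ⟨B, hB⟩ := exists_witness fun U B => Sub (El U) B (cl U τ) ∧ CardLe (El U) B (cl U om) ∧
    ∀ V x, El U V (cl U τ) → El U x V → ∃ b, El U b B ∧ El U x b ∧ Sub (El U) b V
  obtain ⟨b, hb⟩ := exists_listing B (b := Ordinal.omega0) (ι := ℕ) (by simp)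
  refine ⟨b, fun U h V x hV hx => ?_⟩
  obtain ⟨h1, h2, h3⟩ := hB U h
  obtain ⟨c, h4, h5, h6⟩ := h3 V x hV hx
  obtain ⟨c, rfl⟩ := cl_surj c
  have h7 : ∃ n, App (El U) (cl U (seqNm b)) n (cl U c) :=
    Ex.elim U (hb U c h2 h4) fun U k e => ⟨_, (app_seqNm b k).2 e⟩
  exact let ⟨n, hn⟩ := h7; ⟨n, _, hn, h1 _ h4, h5, h6⟩

/-- `x` lies in the open set `b k`. -/
def Bs (τ : Nm P) (b : ℕ → Nm P) (k : ℕ) (x : Nm P) (U : GU P) : Prop :=
  El U (cl U (b k)) (cl U τ) ∧ El U (cl U x) (cl U (b k))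

instance (τ : Nm P) (b : ℕ → Nm P) (k : ℕ) (x : Nm P) : Dec (no_index fun U => Bs τ b k x U) := by
  unfold Bs; infer_instance

omit [OrderTop P] in
theorem inter_mem {S τ : Nm P} (b : ℕ → Nm P) (h : IsTopology (El U) (cl U S) (cl U τ)) (u : Finset ℕ)
    (hu : ∀ k ∈ u, El U (cl U (b k)) (cl U τ)) :
    ∀ I, (∀ x, El U x I ↔ El U x (cl U S) ∧ ∀ k : u, El U x (cl U (b k))) → El U I (cl U τ) := by
  induction u using Finset.induction_on with
  | empty =>
    intro I hI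
    rw [MU_ext I (cl U S) fun x => by simp [hI]]
    exact h.2.1
  | insert a u _ ih =>
    intro I hI
    refine h.2.2.1 _ _ I (ih (fun k hk => hu k (Finset.mem_insert_of_mem hk)) _
      (el_sepN (fun U x => ∀ k : u, El U x (cl U (b k))) S)) (hu a (Finset.mem_insert_self _ _))
      fun x => ?_
    rw [hI, el_sepN (fun U x => ∀ k : u, El U x (cl U (b k)))]
    simp only [Subtype.forall, Finset.mem_insert, forall_eq_or_imp]
    tauto

/-- Using the Menger property for an array of covers by finite intersections of basic sets. -/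
theorem menger_array (S τ X : Nm P) (b : ℕ → Nm P) (Θ : ℕ → ℕ × Finset ℕ → GU P → Prop)
    [∀ n t, Dec (Θ n t)] (Ψ : GU P → Prop) [Dec Ψ]
    (h0 : ∀ U, Ψ U → IsTopology (El U) (cl U S) (cl U τ) ∧ Sub (El U) (cl U X) (cl U S) ∧
      Menger (El U) (cl U om) (cl U τ) (cl U X))
    (hc : ∀ U x n, Ψ U → El U (cl U x) (cl U X) →
      Ex (fun t U => Θ n t U ∧ ∀ k : t.2, Bs τ b k x U) U) :
    ∃ (Γ : ℕ → ℕ → GU P → Prop) (_ : ∀ n m, Dec (Γ n m)), (∀ U n, Ψ U → Ex (Γ n) U) ∧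
      ∀ U x, Ψ U → El U (cl U x) (cl U X) → Ex (fun n U => All (fun m U => Γ n m U →
        Ex (fun t U => t.1 ≤ m ∧ Θ n t U ∧ ∀ k : t.2, Bs τ b k x U) U) U) U := by
  let I : ℕ × Finset ℕ → Nm P := fun t => sepN (fun U x => ∀ k : t.2, El U x (cl U (b k))) S
  have hI : ∀ t U z, El U z (cl U (I t)) ↔ El U z (cl U S) ∧ ∀ k : t.2, El U z (cl U (b k)) :=
    fun t U => el_sepN (fun U x => ∀ k : t.2, El U x (cl U (b k))) S
  let g : ℕ → ℕ × Finset ℕ → GU P → Prop := fun n t U =>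
    Θ n t U ∧ ∀ k : t.2, El U (cl U (b k)) (cl U τ)
  let A : ℕ → Nm P := fun n => setNm I (g n)
  obtain ⟨G, hG⟩ := exists_witness fun U G => ∃ D, IsFun (El U) G (cl U om) D ∧
    (∀ n A' F, App (El U) (cl U (seqNm A)) n A' → App (El U) G n F →
      Sub (El U) F A' ∧ IsFinite (El U) (cl U om) F) ∧
    ∀ x, El U x (cl U X) → ∃ n F V, App (El U) G n F ∧ El U V F ∧ El U x V
  replace hG := fun U (h : Ψ U) => hG U ((h0 U h).2.2 _ _ (isFun_seqNm A) (by
    intro n A' h1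
    obtain ⟨n, rfl⟩ := cl_surj n
    obtain ⟨A', rfl⟩ := cl_surj A'
    revert h
    refine wlog_seq n A' A U h1 fun U n _ e h => ?_
    rw [e]
    refine ⟨fun V hV => ?_, fun x hx => ?_⟩
    · obtain ⟨V, rfl⟩ := cl_surj V
      clear e
      revert h
      exact wlog_set V I (g n) U hV fun U t ht e h =>
        e ▸ inter_mem b (h0 U h).1 t.2 (fun k hk => ht.2 ⟨k, hk⟩) _ (hI t U)
    · obtain ⟨x, rfl⟩ := cl_surj x
      have h2 := hc U x n h hx
      have h3 := (h0 U h).2.1 _ hx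
      clear e h hx
      revert h3
      exact Ex.elim U h2 fun U t ht h3 => ⟨_, el_setNm I t ⟨ht.1, fun k => (ht.2 k).1⟩,
        (hI t U _).2 ⟨h3, fun k => (ht.2 k).2⟩⟩))
  choose F hF using fun n => exists_witness fun U F => App (El U) (cl U G) (cl U (nn n)) F
  refine ⟨fun n m U => Sub (El U) (cl U (F n)) (cl U (setNm I fun t U => t.1 ≤ m ∧ g n t U)),
    inferInstance, fun U n h => ?_, fun U x h hx => ?_⟩
  · obtain ⟨D, h1, h2, -⟩ := hG U h
    obtain ⟨z, h3, -⟩ := MU_zfc.app_total h1 (el_nn_om n)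
    obtain ⟨h4, h5⟩ := h2 _ _ _ ((app_seqNm A n).2 rfl) (hF n U ⟨z, h3⟩)
    exact ex_sub_of_finite I (g n) Prod.fst (F n) h5 h4
  · obtain ⟨D, h1, -, h2⟩ := hG U h
    obtain ⟨n, F', V, h3, h4, h5⟩ := h2 _ hx
    have h6 := (MU_zfc.app_mem h1 h3).1
    obtain ⟨n, rfl⟩ := cl_surj n
    obtain ⟨D, rfl⟩ := cl_surj D
    obtain ⟨F', rfl⟩ := cl_surj F'
    obtain ⟨V, rfl⟩ := cl_surj V
    clear h hx h2
    revert h5; revert h4; revert h3; revert h1
    refine wlog_nat n U h6 fun U n e h1 h3 h4 h5 => Ex.intro n ?_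
    rw [e] at h3
    rw [MU_zfc.app_unique h1 h3 (hF n U ⟨_, h3⟩)] at h4
    refine All.intro (fun U => El U (cl U V) (cl U (F n)) ∧ El U (cl U x) (cl U V))
      (fun U m h h' => ?_) ⟨h4, h5⟩
    have h7 := h.2
    clear h1 h3 h4 h5 e
    revert h7
    refine wlog_set V _ _ U (h' _ h.1) fun U t ht e h7 => Ex.intro t ⟨ht.1, ht.2.1, fun k => ?_⟩
    exact ⟨ht.2.2 k, ((hI t U _).1 (e ▸ h7)).2 k⟩

/-- The hypothesis on a sequence of covers in the definition of the Menger property. -/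
def Covers (τ X 𝒰 C : Nm P) (U : GU P) : Prop :=
  IsFun (El U) (cl U 𝒰) (cl U om) (cl U C) ∧ ∀ n A, App (El U) (cl U 𝒰) n A →
    Sub (El U) A (cl U τ) ∧ ∀ x, El U x (cl U X) → ∃ V, El U V A ∧ El U x V

instance (τ X 𝒰 C : Nm P) : Dec (no_index fun U => Covers τ X 𝒰 C U) := by
  unfold Covers; infer_instance

/-- The conclusion in the definition of the Menger property. -/
def Selects (X 𝒰 : Nm P) (U : GU P) : Prop :=
  ∃ G D, IsFun (El U) G (cl U om) D ∧
    (∀ n A F, App (El U) (cl U 𝒰) n A → App (El U) G n F →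
      Sub (El U) F A ∧ IsFinite (El U) (cl U om) F) ∧
    ∀ x, El U x (cl U X) → ∃ n F V, App (El U) G n F ∧ El U V F ∧ El U x V

instance (X 𝒰 : Nm P) : Dec (no_index fun U => Selects X 𝒰 U) := by
  unfold Selects; infer_instance

/-- Proving the Menger property from a bound on indices of basic sets. -/
theorem menger_intro (τ X 𝒰 C : Nm P) (b : ℕ → Nm P) :
    ∃ (Kp : ℕ → ℕ → GU P → Prop) (_ : ∀ n k, Dec (Kp n k)),
      (∀ U x n, BaseSeq τ b U → Covers τ X 𝒰 C U → El U (cl U x) (cl U X) →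
        Ex (fun k U => Kp n k U ∧ Bs τ b k x U) U) ∧
      ∀ (D : ℕ → ℕ → GU P → Prop) [∀ n m, Dec (D n m)] (Ψ : GU P → Prop) [Dec Ψ],
        (∀ U, Ψ U → Covers τ X 𝒰 C U) → (∀ U n, Ψ U → Ex (D n) U) →
        (∀ U n m m', D n m U → D n m' U → m = m') →
        (∀ U x, Ψ U → El U (cl U x) (cl U X) → Ex (fun (t : ℕ × ℕ × ℕ) U =>
          D t.1 t.2.1 U ∧ t.2.2 ≤ t.2.1 ∧ Kp t.1 t.2.2 U ∧ Bs τ b t.2.2 x U) U) →
        ∀ U, Ψ U → Selects X 𝒰 U := by
  choose A hA using fun n => exists_witness fun U A => App (El U) (cl U 𝒰) (cl U (nn n)) A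
  choose V hV using fun n k => exists_witness fun U V =>
    El U V (cl U (A n)) ∧ Sub (El U) (cl U (b k)) V
  have hA' : ∀ U n, Covers τ X 𝒰 C U → App (El U) (cl U 𝒰) (cl U (nn n)) (cl U (A n)) :=
    fun U n h => let ⟨z, h1, _⟩ := MU_zfc.app_total h.1 (el_nn_om n); hA n U ⟨z, h1⟩
  refine ⟨fun n k U => El U (cl U (V n k)) (cl U (A n)) ∧ Sub (El U) (cl U (b k)) (cl U (V n k)),
    inferInstance, fun U x n h1 h2 hx => ?_, fun D _ Ψ _ h1 h2 h3 h4 U h => ?_⟩
  · obtain ⟨h3, h4⟩ := h2.2 _ _ (hA' U n h2)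
    obtain ⟨W, h5, h6⟩ := h4 _ hx
    obtain ⟨k, B, h7, h8⟩ := h1 W _ (h3 _ h5) h6
    obtain ⟨k, rfl⟩ := cl_surj k
    obtain ⟨B, rfl⟩ := cl_surj B
    obtain ⟨W, rfl⟩ := cl_surj W
    clear h1 h2 h3 h4 h6 hx
    revert h8; revert h5
    refine wlog_seq k B b U h7 fun U k _ e h5 h8 => ?_
    rw [e] at h8
    exact Ex.intro k ⟨hV n k U ⟨_, h5, h8.2.2⟩, h8.1, h8.2.1⟩
  · let g : ℕ → ℕ → GU P → Prop := fun n k U => El U (cl U (V n k)) (cl U (A n)) ∧
      Ex (fun m U => D n m U ∧ k ≤ m) U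
    let F : ℕ → Nm P := fun n => setNm (V n) (g n)
    refine ⟨_, _, isFun_seqNm F, fun n A' F' h5 h6 => ?_, fun x hx => ?_⟩
    · obtain ⟨n, rfl⟩ := cl_surj n
      obtain ⟨A', rfl⟩ := cl_surj A'
      obtain ⟨F', rfl⟩ := cl_surj F'
      revert h5; revert h
      refine wlog_seq n F' F U h6 fun U n e e' h h5 => ?_
      rw [e] at h5
      rw [e', MU_zfc.app_unique (h1 U h).1 h5 (hA' U n (h1 U h))]
      refine ⟨fun z hz => ?_, Ex.elim U (h2 U n h) fun U m hm =>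
        isFinite_of_cover (V n) (m + 1) _ fun z hz => ?_⟩
      · obtain ⟨z, rfl⟩ := cl_surj z
        exact wlog_set z (V n) (g n) U hz fun U k hk e => e ▸ hk.1
      · obtain ⟨z, rfl⟩ := cl_surj z
        revert hm
        refine wlog_set z (V n) (g n) U hz fun U k hk e hm => ⟨⟨k, ?_⟩, e⟩
        clear e
        revert hm
        exact Ex.elim U hk.2 fun U m' h7 hm => Nat.lt_succ_of_le (h3 U n _ _ h7.1 hm ▸ h7.2)
    · obtain ⟨x, rfl⟩ := cl_surj x
      exact Ex.elim U (h4 U x h hx) fun U t ht => ⟨_, _, _, (app_seqNm F t.1).2 rfl,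
        el_setNm (V t.1) t.2.2 ⟨ht.2.2.1.1, Ex.intro t.2.1 ⟨ht.1, ht.2.1⟩⟩,
        ht.2.2.1.2 _ ht.2.2.2.2⟩

end Pool.Agent.Lib.MP_6245c4_gt
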