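import Pool.Agent.Shared.RealForcing.Canjar
import Pool.Agent.Shared.RealForcing.Reals
import Pool.Agent.Shared.RealForcing.Rand
import Pool.Agent.Lib.MP_6245c4_gt.Menger
import Pool.Agent.Shared.RealForcing.Cantor

-- part Pool.Agent.Lib.MP_6245c4_gt.Small
section

/-! The model: the bounding number and the groupwise density number are at most `#W`. -/

namespace Pool.Agent.Lib.MP_6245c4_gt

open Pool.Agent.Lib.MP_2739cb_lc Pool.Agent.Shared.RealForcing Set Filter Cardinal MeasureTheory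
open Sys

variable {Λ W : Type} [LinearOrder W] [Reg W]

/-- The approximations that keep the family unbounded. -/
noncomputable def objSys (B : Base Λ W) (hB : InK B B.k) : Sys {k // InK B k} (Pt Λ W) where
  k0 := ⟨B.k, hB⟩
  k0_le k := k.2.1
  m k := Sig W k.1.A
  F k := k.1.F
  m_mono _ _ h := Sig_mono h.1
  F_anti _ _ h := (Obj.ext h).GF_le
  sigma _ := inferInstance
  neBot := ⟨fun h => by
    obtain ⟨_, -, h1⟩ := exists_gen (Cond.top_in B.k.A) (φ := fun _ => False)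
      (h ▸ eventually_bot : ∀ᶠ _ in B.k.F, False)
    exact h1⟩
  refl _ _ _ h := (Obj.ext h).reflect_ev
  ccc _ := ccc_GF _ _
  ub I _ c hI hc := by
    rcases isEmpty_or_nonempty I with h | h
    · exact ⟨⟨B.k, hB⟩, fun i => isEmptyElim i⟩
    · have h1 := chain_of_lt (c := fun i => (c i).1) hc
      exact ⟨⟨_, inK_uni (hI.trans (succ_aleph0 ▸ Order.succ_le_of_lt Reg.unc)) h1
        fun i => (c i).2⟩, Obj.le_uni h1⟩

noncomputable abbrev sys (B : Base Λ W) (hB : InK B B.k) := (objSys B hB).rand W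

variable {B : Base Λ W} {hB : InK B B.k}

theorem unbounded (U : GU (sys B hB).Cd) : ∃ F, Unbounded (El U) (cl U om) F ∧
    CardLe (El U) F (cl U (oN (#W).ord)) := by
  let A : W → Nm (sys B hB).Cd := fun ξ => (sys B hB).fnNm fun y => B.b ξ y.1
  have hb : ∀ ξ, (sys B hB).Ms (sys B hB).k0 fun y => B.b ξ y.1 := fun ξ =>
    Ms.fst (s := objSys B hB) (B.ms ξ)
  refine ⟨_, ⟨fun f hf => ?_, fun g hg => ?_⟩, cardLe_setNm A (fun _ _ => True) (by simp)⟩
  · obtain ⟨f, rfl⟩ := cl_surj f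
    exact wlog_set f A _ U hf fun U ξ _ e => e ▸ isFun_fnNm (lev_k0 U) (hb ξ)
  · obtain ⟨g, rfl⟩ := cl_surj g
    revert hg
    refine wlog_dense (fun k _ => exists_fn k g) U (lev_k0 U) fun U k hk ⟨f, hf, h⟩ hU hg => ?_
    obtain ⟨g₀, h1, h2⟩ := @exists_bound _ (Sig W k.1.A) _ _ (mu W) _ f hf
    obtain ⟨ξ, hξ⟩ := k.2.2.2 g₀ h1
    refine ⟨_, el_setNm A ξ trivial, fun h3 => ?_⟩
    rw [h U hU hg, leStar_fnNm hU ((hb ξ).up hk) hf] at h3
    obtain ⟨y, h4, h5, h6⟩ := (h3.and ((ev_of_ae hU (rand_fst hξ)).and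
      (ev_of_ae hU (E := fun y => ∀ᶠ n in atTop, f y n ≤ g₀ y.1 n)
        (rand_ev.2 (Eventually.of_forall h2))))).exists
    obtain ⟨n, h7, h8, h9⟩ := (h5.and_eventually (h4.and h6)).exists
    omega

theorem almostSub_trans {P : Type} [Preorder P] [OrderTop P] {U : GU P} {a b c : MU U}
    (ha : Sub (El U) a (cl U om)) (h1 : AlmostSub (El U) (cl U om) a b)
    (h2 : AlmostSub (El U) (cl U om) b c) : AlmostSub (El U) (cl U om) a c := by
  have key : ∀ N N' n : MU U, El U n (cl U om) → El U N N' → OrdLe (El U) N' n →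
      OrdLe (El U) N n := by
    rintro N N' n hn h (h' | rfl)
    · obtain ⟨n, rfl⟩ := cl_surj n
      obtain ⟨N, rfl⟩ := cl_surj N
      obtain ⟨N', rfl⟩ := cl_surj N'
      clear ha h1 h2
      revert h'; revert h
      exact wlog_nat n U hn fun U m e h h' => Or.inl (e ▸ (isOrd_cl_on m).1 _ (e ▸ h') _ h)
    · exact Or.inl h
  obtain ⟨N, hN, h1⟩ := h1
  obtain ⟨N', hN', h2⟩ := h2
  rcases (isOrd_cl_on _).2 N N' hN hN' with h | rfl | h
  · exact ⟨N', hN', fun n h3 h4 => h2 n (h1 n h3 (key _ _ _ (ha n h3) h h4)) h4⟩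
  · exact ⟨N, hN, fun n h3 h4 => h2 n (h1 n h3 h4) h4⟩
  · exact ⟨N, hN, fun n h3 h4 => h2 n (h1 n h3 h4) (key _ _ _ (ha n h3) h h4)⟩

theorem ae_not_sub_blocks (π : ℕ → ℕ) (z : Set ℕ) : ∀ᵐ t ∂nu, StrictMono π →
    (∀ n, ∃ m, n ≤ m ∧ m ∈ z) →
      ¬ ∃ N, ∀ n, N ≤ n → n ∈ z → ∃ i, t i = true ∧ π i ≤ n ∧ n < π (i + 1) := by
  by_cases h : StrictMono π ∧ ∀ n, ∃ m, n ≤ m ∧ m ∈ z
  · have h1 : ∀ N, {i | ∃ n, N ≤ n ∧ n ∈ z ∧ π i ≤ n ∧ n < π (i + 1)}.Infinite := by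
      intro N
      refine infinite_of_forall_exists_gt fun j => ?_
      obtain ⟨n, hn, hz⟩ := h.2 (max N (π (j + 1)))
      have h2 : ∃ i, n < π (i + 1) := ⟨n, (Nat.lt_succ_self n).trans_le (h.1.le_apply)⟩
      have h3 : j < Nat.find h2 := by
        refine (Nat.lt_find_iff h2 j).2 fun i hi => not_lt.2 ?_
        exact (h.1.monotone (Nat.succ_le_succ hi)).trans (le_of_max_le_right hn)
      refine ⟨Nat.find h2, ⟨n, le_of_max_le_left hn, hz, ?_, Nat.find_spec h2⟩, h3⟩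
      have h4 := Nat.find_min h2 (m := Nat.find h2 - 1) (by omega)
      rwa [show Nat.find h2 - 1 + 1 = Nat.find h2 by omega, not_lt] at h4
    filter_upwards [ae_all_iff.2 fun N => ae_exists_eq (h1 N) false] with t ht _ _ ⟨N, hN⟩
    obtain ⟨i, ⟨n, h2, h3, h4, h5⟩, h6⟩ := ht N
    obtain ⟨i', h7, h8, h9⟩ := hN n h2 h3
    have h10 := h.1.lt_iff_lt.1 (h4.trans_lt h9)
    have h11 := h.1.lt_iff_lt.1 (h8.trans_lt h5)
    obtain rfl : i = i' := by omega
    simp [h6] at h7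
  · exact Eventually.of_forall fun _ h1 h2 => absurd ⟨h1, h2⟩ h

theorem gFamily (U : GU (sys B hB).Cd) : ∃ F, GFamily (El U) (cl U om) F ∧
    CardLe (El U) F (cl U (oN (#W).ord)) := by
  let s := sys B hB
  obtain ⟨pw, hpw⟩ := exists_pow (P := s.Cd) om
  let T : W → Type := fun ξ => {t : {k // InK B k} × (Pt Λ W × Om W → Set ℕ) //
    s.Ms t.1 t.2 ∧ DepOn (Iio ξ) t.2}
  let Z : W → Nm s.Cd := fun ξ => setNm (fun t : T ξ => s.sbNm t.1.2) fun t U => lev t.1.1 U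
  let Ψ : W → ∀ U : GU s.Cd, MU U → Prop := fun ξ U a => InfSub (El U) (cl U om) a ∧
    ¬ ∃ z, El U z (cl U (Z ξ)) ∧ InfSub (El U) (cl U om) z ∧ AlmostSub (El U) (cl U om) z a
  let G : W → Nm s.Cd := fun ξ => sepN (Ψ ξ) pw
  have hG : ∀ ξ U a, El U a (cl U (G ξ)) ↔ Ψ ξ U a := fun ξ U a => by
    rw [el_sepN (Ψ ξ), hpw]; exact ⟨fun h => h.2, fun h => ⟨h.1.1, h⟩⟩
  refine ⟨_, ⟨fun Γ hΓ => ?_, fun a ha => ?_⟩, cardLe_setNm G (fun _ _ => True) (by simp)⟩
  · obtain ⟨Γ, rfl⟩ := cl_surj Γ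
    refine wlog_set Γ G _ U hΓ fun U ξ _ e => ?_
    rw [e]
    refine ⟨fun a ha => ((hG ξ U a).1 ha).1, fun a b ha hb hab => (hG ξ U b).2
      ⟨hb, fun ⟨z, h1, h2, h3⟩ => ((hG ξ U a).1 ha).2 ⟨z, h1, h2, almostSub_trans h2.1 h3 hab⟩⟩,
      fun p hp => ?_⟩
    obtain ⟨p, rfl⟩ := cl_surj p
    clear e
    revert hp
    refine wlog_dense (fun k _ => exists_fn k p) U (lev_k0 U) fun U k _ ⟨π, hπ, h⟩ hU hp => ?_
    have e := h U hU hp.1
    rw [e] at hp ⊢
    clear e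
    have h1 := strictMono_of_isPartition hU hπ hp
    obtain ⟨T₀, hT₀, h2⟩ := @exists_depOn_fun _ _ (Sig W k.1.A) π hπ
    have := (hT₀.insert ξ).to_subtype
    obtain ⟨ζ, hζ⟩ := Reg.bdd_countable fun t : (insert ξ T₀ : Set W) => t.1
    let I : Pt Λ W × Om W → Set ℕ := fun y => {i | y.2 ζ i = true}
    have hI : s.Ms k I := by
      let := s.m k
      have := ms_coord (objSys B hB) k ζ
      exact measurable_set_iff.2 fun i => show Measurable fun y : Pt Λ W × Om W =>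
        y.2 ζ i = true by fun_prop
    have h3 : ev (fun y => ∀ n, ∃ m, n ≤ m ∧ m ∈ I y) U := by
      refine ev_of_ae hU (rand_ev.2 (Eventually.of_forall fun x => ?_))
      exact (measurePreserving_eval_infinitePi (fun _ : W => nu) ζ).quasiMeasurePreserving.ae
        (ae_all_iff.2 fun n => ae_exists_eq (Ici_infinite n) true)
    have ha : s.Ms k fun y => {x | ∃ i, i ∈ I y ∧ π y i ≤ x ∧ x < π y (i + 1)} := by
      let := s.m k
      exact measurable_set_iff.2 fun x => show Measurable fun y =>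
        ∃ i, i ∈ I y ∧ π y i ≤ x ∧ x < π y (i + 1) by fun_prop
    refine ⟨_, _, (infSub_sbNm hU hI).2 h3, isBlocks_sbNm hU hπ hI, (hG ξ U _).2
      ⟨(infSub_sbNm hU ha).2 ((h1.and h3).imp fun y hy n => ?_), fun ⟨z, h4, h5, h6⟩ => ?_⟩⟩
    · obtain ⟨m, h4, h5⟩ := hy.2 n
      exact ⟨π y m, h4.trans hy.1.le_apply, m, h5, le_rfl, hy.1 (Nat.lt_succ_self m)⟩
    · obtain ⟨z, rfl⟩ := cl_surj z
      clear hp h3
      revert h6; revert h5; revert h1; revert hU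
      refine wlog_set z _ _ U h4 fun U t ht e hU h1 h5 h6 => ?_
      rw [e] at h5 h6
      clear e
      revert h6; revert h5; revert h1
      refine wlog_lev U hU ht fun U k' hk ht hU h1 h5 h6 => ?_
      rw [infSub_sbNm hU (t.2.1.up ht)] at h5
      rw [almostSub_sbNm hU (t.2.1.up ht) (ha.up hk)] at h6
      have h7 := ev_fresh hU (f := fun y => (π y, t.1.2 y))
        (Measurable.prodMk (hπ.up hk) (t.2.1.up ht))
        ((h2.mono subset_union_left).prod (t.2.2.mono subset_union_right)) (ζ := ζ)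
        (fun h => h.elim (fun h => lt_irrefl _ (hζ ⟨ζ, Or.inr h⟩))
          fun h => lt_asymm h (hζ ⟨ξ, Or.inl rfl⟩))
        (Q := fun x => (∀ i j, i < j → x.1.1 i < x.1.1 j) → (∀ n, ∃ m, n ≤ m ∧ m ∈ x.1.2) →
          ¬ ∃ N, ∀ n, N ≤ n → n ∈ x.1.2 → ∃ i, x.2 i = true ∧ x.1.1 i ≤ n ∧ n < x.1.1 (i + 1))
        (by fun_prop) fun b => ae_not_sub_blocks b.1 b.2
      obtain ⟨y, h8, h9, h10, h11⟩ := (h1.and (h5.and (h6.and h7))).exists
      exact h11 h8 h9 h10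
  · obtain ⟨a, rfl⟩ := cl_surj a
    revert ha
    refine wlog_dense (fun k _ => exists_sb k a) U (lev_k0 U) fun U k _ ⟨b, hb, h⟩ hU ha => ?_
    obtain ⟨T₀, hT₀, h2⟩ := @exists_depOn_set _ _ (Sig W k.1.A) b hb
    have := hT₀.to_subtype
    obtain ⟨ξ, hξ⟩ := Reg.bdd_countable fun t : T₀ => t.1
    refine ⟨_, el_setNm G ξ trivial, fun h3 => ((hG ξ U _).1 h3).2 ⟨_, ?_, ha,
      _, el_nn_om 0, fun _ h _ => h⟩⟩
    rw [h U hU ha.1]
    exact el_setNm (fun t : T ξ => s.sbNm t.1.2)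
      ⟨(k, b), hb, h2.mono fun t ht => hξ ⟨t, ht⟩⟩ hU

end Pool.Agent.Lib.MP_6245c4_gt
end

-- part Pool.Agent.Lib.MP_6245c4_gt.Union
section

/-! The model: a union of `#W` many Menger sets is Menger. -/

namespace Pool.Agent.Lib.MP_6245c4_gt

open Pool.Agent.Lib.MP_2739cb_lc Pool.Agent.Shared.RealForcing Set Filter Cardinal MeasureTheory
open Sys

/-- A chain of `N + 1` consecutive long intervals, each with a witness in `u`. -/
def Ch (π : ℕ → ℕ) (K : ℕ × ℕ → Prop) (j N m : ℕ) (u : Finset ℕ) : Prop :=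
  ∃ t : Fin (N + 2) → ℕ, (StrictMono t ∧ j ≤ t 0 ∧ t (Fin.last _) ≤ m) ∧
    ∀ l : Fin (N + 1), ∃ c, c ∈ u ∧ c ≤ π (t l.succ) ∧ K (π (t l.castSucc), c)

theorem measurable_ch {X : Type} [MeasurableSpace X] {π : X → ℕ → ℕ} {K : ℕ × ℕ → X → Prop}
    (hπ : Measurable π) (hK : ∀ x, Measurable (K x)) (j N m : ℕ) (u : Finset ℕ) :
    Measurable fun y => Ch (π y) (fun x => K x y) j N m u :=
  Measurable.exists fun _ => measurable_const.and (Measurable.forall fun _ =>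
    Measurable.exists fun c => measurable_const.and ((Measurable.le' measurable_const hπ.eval).and
      (measurable_app (f := fun y n => K (n, c) y) (fun _ => hK _) hπ.eval)))

theorem exists_ch {π : ℕ → ℕ} (hπ : StrictMono π) {K : ℕ × ℕ → Prop} {Bb : ℕ → Prop}
    (h : ∀ n, ∃ c, K (n, c) ∧ Bb c) (j N : ℕ) :
    ∃ t : ℕ × Finset ℕ, Ch π K j N t.1 t.2 ∧ ∀ c : t.2, Bb c := by
  choose c h1 h2 using h
  let t : ℕ → ℕ := fun l => Nat.rec j (fun _ x => max x (c (π x)) + 1) l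
  have ht : ∀ l, t (l + 1) = max (t l) (c (π (t l))) + 1 := fun _ => rfl
  have h3 : StrictMono t := strictMono_nat_of_lt_succ fun l => by
    rw [ht]; exact Nat.lt_succ_of_le (le_max_left _ _)
  refine ⟨(t (N + 1), (Finset.range (N + 1)).image fun l => c (π (t l))),
    ⟨fun l => t l, ⟨fun _ _ h => h3 h, le_rfl, le_rfl⟩, fun l => ⟨c (π (t l)),
      Finset.mem_image_of_mem _ (Finset.mem_range.2 l.2), ?_, h1 _⟩⟩, fun ⟨x, hx⟩ => ?_⟩
  · refine le_trans ?_ hπ.le_apply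
    change _ ≤ t (l + 1)
    rw [ht]
    exact (le_max_right _ _).trans (Nat.le_succ _)
  · obtain ⟨l, -, rfl⟩ := Finset.mem_image.1 hx
    exact h2 _

theorem exists_gap {π h : ℕ → ℕ} (hπ : StrictMono π) {K : ℕ × ℕ → Prop} {j N m : ℕ} {u : Finset ℕ}
    (h1 : Ch π K j N m u) (h2 : ∀ l, N ≤ l → m < h l) : ∃ t : ℕ × ℕ × ℕ, j ≤ t.1 ∧
      (∀ i, t.1 ≤ i → i < t.2.1 → i ∉ blocks π (range h)) ∧ t.2.2 ≤ t.2.1 ∧ K (t.1, t.2.2) ∧
      t.2.2 ∈ u := by
  obtain ⟨t, ⟨h3, h4, h5⟩, h6⟩ := h1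
  obtain ⟨l, hl⟩ : ∃ l : Fin (N + 1), ∀ i, ¬ (t l.castSucc ≤ h i ∧ h i < t l.succ) := by
    by_contra hc
    push Not at hc
    choose i h7 h8 using hc
    have h9 : ∀ l, i l < N := fun l => not_le.1 fun h9 =>
      lt_asymm (h2 _ h9) ((h8 l).trans_le ((h3.monotone (Fin.le_last _)).trans h5))
    have h10 := Fintype.card_le_of_injective (fun l => (⟨i l, h9 l⟩ : Fin N)) fun l l' e => by
      have e' : i l = i l' := congrArg Fin.val e
      have h11 := h3.lt_iff_lt.1 ((h7 l).trans_lt (e' ▸ h8 l'))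
      have h12 := h3.lt_iff_lt.1 ((h7 l').trans_lt (e' ▸ h8 l))
      rw [Fin.lt_def] at h11 h12
      exact Fin.ext (by simp at h11 h12; omega)
    simp at h10
  obtain ⟨c, h7, h8, h9⟩ := h6 l
  refine ⟨(π (t l.castSucc), π (t l.succ), c),
    h4.trans ((h3.monotone (Fin.zero_le _)).trans hπ.le_apply), ?_, h8, h9, h7⟩
  rintro x h10 h11 ⟨_, ⟨i, rfl⟩, h12, h13⟩
  exact hl i ⟨Nat.le_of_lt_succ (hπ.lt_iff_lt.1 (h10.trans_lt h13)),
    hπ.lt_iff_lt.1 (h12.trans_lt h11)⟩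

variable {Λ W : Type} [LinearOrder W] [Reg W] {B : Base Λ W} {hB : InK B B.k}

/-- Every point of `X` is, infinitely often, in a basic set that refines the cover and whose
index is bounded by the end of a gap of `a`. -/
def Gap (τ X : Nm (sys B hB).Cd) (b : ℕ → Nm (sys B hB).Cd) (Ψ : GU (sys B hB).Cd → Prop)
    (EK : ℕ × ℕ → Pt Λ W × Om W → Prop) (k : Obj Λ W) (a : Pt Λ W → Set ℕ) : Prop :=
  ∃ hk : InK B k, ∀ U x j, lev ⟨k, hk⟩ U → Ψ U → El U (cl U x) (cl U X) →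
    Ex (fun (t : ℕ × ℕ × ℕ) U => ev (fun y => j ≤ t.1 ∧
      (∀ i, t.1 ≤ i → i < t.2.1 → i ∉ a y.1) ∧ t.2.2 ≤ t.2.1 ∧ EK (t.1, t.2.2) y) U ∧
      Bs τ b t.2.2 x U) U

theorem dense_gap (S τ X : Nm (sys B hB).Cd) (b : ℕ → Nm (sys B hB).Cd)
    (Ψ : GU (sys B hB).Cd → Prop) [Dec Ψ] {k₁ : {k // InK B k}}
    {EK : ℕ × ℕ → Pt Λ W × Om W → Prop} (hK : ∀ x, (sys B hB).Ms k₁ (EK x))
    (h0 : ∀ U, Ψ U → IsTopology (El U) (cl U S) (cl U τ) ∧ Sub (El U) (cl U X) (cl U S) ∧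
      Menger (El U) (cl U om) (cl U τ) (cl U X))
    (hc : ∀ U x n, lev k₁ U → Ψ U → El U (cl U x) (cl U X) →
      Ex (fun c U => ev (EK (n, c)) U ∧ Bs τ b c x U) U) :
    DenseAbove B k₁.1 (Gap τ X b Ψ EK) := by
  intro k hk hk₁ π hπ hπ'
  let s := sys B hB
  let k₂ : {k // InK B k} := ⟨k, hk⟩
  replace hk₁ : k₁ ≤ k₂ := hk₁
  have hπ₂ : s.Ms k₂ fun y => π y.1 := Ms.fst (s := objSys B hB) hπ
  have hch : ∀ j N m u, s.Ms k₂ fun y => Ch (π y.1) (fun x => EK x y) j N m u := fun j N m u =>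
    @measurable_ch _ (s.m k₂) _ _ hπ₂ (fun x => (hK x).up hk₁) j N m u
  choose Γ hΓd hΓ1 hΓ2 using fun j => menger_array S τ X b
    (fun n t U => ev (fun y => Ch (π y.1) (fun x => EK x y) j (j + n) t.1 t.2) U)
    (fun U => lev k₂ U ∧ Ψ U) (fun U h => h0 U h.2) (by
      rintro U x n ⟨h1, h2⟩ hx
      revert hx; revert h2
      refine wlog_dense (fun k _ => capture (fun c U => Bs τ b c x U) k) U h1
        fun U k₃ hk₃ ⟨EB, hEB, hB'⟩ hU h2 hx => ?_
      let := s.m k₃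
      have hK' : ∀ x, Measurable (EK x) := fun x => (hK x).up (hk₁.trans hk₃)
      have h3 : ev (fun y => ∀ n, ∃ c, EK (n, c) y ∧ EB c y) U := by
        by_contra hn
        revert hx; revert h2
        refine wlog_not_all U hU (fun n => show Measurable _ by fun_prop) hn
          fun U n hU hn h2 hx => hn ?_
        have h4 := hc U x n (hU.mono (hk₁.trans hk₃)) h2 hx
        clear hn h2 hx
        revert hU
        exact Ex.elim U h4 fun U c h4 hU =>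
          (h4.1.and ((hB' c U hU).1 h4.2)).imp fun y hy => ⟨c, hy⟩
      exact ev_elim U hU (fun t => ((hch _ _ _ _).up hk₃).and (Measurable.forall fun c => hEB _))
        (h3.imp fun y hy => exists_ch (K := fun x => EK x y) (Bb := fun c => EB c y)
          (hπ' y.1) hy j (j + n)) fun U t hU h =>
          Ex.intro t ⟨h.imp fun _ h => h.1, fun c => (hB' c U hU).2 (h.imp fun _ h => h.2 c)⟩)
  obtain ⟨k₃, hk₃, EΓ, hEΓ, hΓ⟩ := capture (fun x : ℕ × ℕ × ℕ => Γ x.1 x.2.1 x.2.2) k₂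
  let f : Pt Λ W × Om W → ℕ → ℕ := fun y N =>
    (Finset.range (N + 1)).sup fun j => sInf {m | EΓ (j, N - j, m) y}
  have hf : s.Ms k₃ f := by
    let := s.m k₃
    refine measurable_pi_lambda _ fun N => ?_
    have := Finset.measurable_sup' (s := Finset.range (N + 1)) (by simp)
      (f := fun j y => sInf {m | EΓ (j, N - j, m) y})
      fun j _ => measurable_natInf fun m => hEΓ _
    convert this using 2
    simp [f, Finset.sup'_eq_sup]
  obtain ⟨g, hg1, hg2⟩ := @exists_bound _ (Sig W k₃.1.A) _ _ (mu W) _ f hf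
  let h : Pt Λ W → ℕ → ℕ := fun G l => (Finset.range (l + 1)).sup (g G) + 1 + l
  have hh : Ms k₃.1.A h := by
    let := Sig W k₃.1.A
    refine measurable_pi_lambda _ fun l => (Measurable.add_const ?_ 1).add_const l
    have := Finset.measurable_sup' (s := Finset.range (l + 1)) (by simp)
      (f := fun j G => g G j) fun j _ => hg1.eval
    convert this using 2
    simp [Finset.sup'_eq_sup]
  refine ⟨k₃.1, k₃.2, hk₃, fun G => range (h G), fun x => ?_, fun G => ?_, k₃.2,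
    fun U x j hU h2 hx => ?_⟩
  · let := Sig W k₃.1.A
    exact show Measurable fun G => ∃ l, h G l = x by fun_prop
  · exact infinite_of_forall_exists_gt fun n => ⟨h G n, ⟨n, rfl⟩, by simp only [h]; omega⟩
  revert hx; revert h2
  refine wlog_dense (fun k _ => capture (fun c U => Bs τ b c x U) k) U hU
    fun U k₄ hk₄ ⟨EB, hEB, hB'⟩ hU h2 hx => ?_
  let := s.m k₄
  have hK' : ∀ x, Measurable (EK x) := fun x => (hK x).up (hk₁.trans (hk₃.trans hk₄))
  have hEΓ' : ∀ x, Measurable (EΓ x) := fun x => (hEΓ x).up hk₄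
  have hch' : ∀ j N m u, Measurable fun y : Pt Λ W × Om W =>
    Ch (π y.1) (fun x => EK x y) j N m u := fun j N m u => (hch j N m u).up (hk₃.trans hk₄)
  have h3 : ev (fun y => ∀ x : ℕ × ℕ, ∃ m, EΓ (x.1, x.2, m) y) U := by
    by_contra hn
    clear hx
    revert h2
    refine wlog_not_all U hU (fun n => show Measurable _ by fun_prop) hn fun U n hU hn h2 => hn ?_
    have h4 := hΓ1 n.1 U n.2 ⟨hU.mono (hk₃.trans hk₄), h2⟩
    clear hn h2
    revert hU
    exact Ex.elim U h4 fun U m h4 hU =>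
      ((hΓ (n.1, n.2, m) U (hU.mono hk₄)).1 h4).imp fun y hy => ⟨m, hy⟩
  have hm : ∀ j n m, Measurable fun y => EΓ (j, n, m) y → ∃ t : ℕ × Finset ℕ, t.1 ≤ m ∧
      Ch (π y.1) (fun x => EK x y) j (j + n) t.1 t.2 ∧ ∀ c : t.2, EB c y := fun j n m =>
    (hEΓ' _).imp (Measurable.exists fun t => measurable_const.and
      ((hch' _ _ _ _).and (Measurable.forall fun c => hEB _)))
  have h4 : ev (fun y => ∀ j, ∃ n, ∀ m, EΓ (j, n, m) y → ∃ t : ℕ × Finset ℕ, t.1 ≤ m ∧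
      Ch (π y.1) (fun x => EK x y) j (j + n) t.1 t.2 ∧ ∀ c : t.2, EB c y) U := by
    by_contra hn
    clear h3
    revert hx; revert h2
    refine wlog_not_all U hU (fun j => Measurable.exists fun n => Measurable.forall (hm j n)) hn
      fun U j hU hn h2 hx => hn ?_
    have h4 := hΓ2 j U x ⟨hU.mono (hk₃.trans hk₄), h2⟩ hx
    clear hn h2 hx
    revert hU
    refine Ex.elim U h4 fun U n h4 hU => ev.imp ?_ fun y hy => ⟨n, hy⟩
    by_contra hn
    revert h4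
    refine wlog_not_all U hU (hm j n) hn fun U m hU hn h4 => hn (ev_imp hU (hEΓ' _) fun h5 => ?_)
    have h6 := h4.elim m ((hΓ (j, n, m) U (hU.mono hk₄)).2 h5)
    clear hn h4 h5
    revert hU
    exact Ex.elim U h6 fun U t h6 hU => (h6.2.1.and (ev_finite fun c : t.2 =>
      (hB' c U hU).1 (h6.2.2 c))).imp fun y hy => ⟨t, h6.1, hy⟩
  have h5 : ev (fun y => ∀ᶠ N in atTop, f y N ≤ g y.1 N) U :=
    ev_of_ae (hU.mono hk₄) (rand_ev.2 (Eventually.of_forall hg2))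
  have h6 : ev (fun y => ∃ t : ℕ × ℕ × ℕ, (j ≤ t.1 ∧
      (∀ i, t.1 ≤ i → i < t.2.1 → i ∉ blocks (π y.1) (range (h y.1))) ∧ t.2.2 ≤ t.2.1 ∧
        EK (t.1, t.2.2) y) ∧ EB t.2.2 y) U := by
    refine (h3.and (h4.and h5)).imp fun y ⟨h3, h4, h5⟩ => ?_
    obtain ⟨N₀, h5⟩ := eventually_atTop.1 h5
    obtain ⟨n, h4⟩ := h4 (max j N₀)
    obtain ⟨t, h6, h7, h8⟩ := h4 _ (Nat.sInf_mem (s := {m | EΓ (max j N₀, n, m) y}) (h3 (_, n)))
    have h9 : t.1 ≤ g y.1 (max j N₀ + n) := by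
      refine h6.trans (le_trans ?_ (h5 _ ((le_max_right _ _).trans (Nat.le_add_right _ _))))
      have := Finset.le_sup (f := fun i => sInf {m | EΓ (i, max j N₀ + n - i, m) y})
        (Finset.mem_range.2 (Nat.lt_succ_of_le (Nat.le_add_right (max j N₀) n)))
      simpa only [Nat.add_sub_cancel_left] using this
    obtain ⟨r, h10, h11, h12, h13, h14⟩ := exists_gap (h := h y.1) (hπ' y.1) h7 fun l hl => by
      have : _ ≤ (Finset.range (l + 1)).sup (g y.1) :=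
        Finset.le_sup (f := g y.1) (Finset.mem_range.2 (Nat.lt_succ_of_le hl))
      simp only [h]; omega
    exact ⟨r, ⟨(le_max_left _ _).trans h10, h11, h12, h13⟩, h8 ⟨_, h14⟩⟩
  have hπ₄ : Measurable fun y : Pt Λ W × Om W => π y.1 := hπ₂.up (hk₃.trans hk₄)
  have hh₄ : Measurable fun y : Pt Λ W × Om W => h y.1 :=
    (Ms.fst (s := objSys B hB) (k := k₃) hh).up hk₄
  refine ev_elim U hU (fun t => ?_) h6 fun U t hU h7 =>
    Ex.intro t ⟨h7.imp fun _ h => h.1, (hB' _ U hU).2 (h7.imp fun _ h => h.2)⟩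
  refine Measurable.and (measurable_const.and (Measurable.and ?_ (measurable_const.and (hK' _))))
    (hEB _)
  exact Measurable.forall fun i => measurable_const.imp (measurable_const.imp (Measurable.not
    (Measurable.exists fun j => (Measurable.exists fun l => (hh₄.eval (a := l)).eq_const j).and
      ((hπ₄.eval.le' measurable_const).and (measurable_const.lt (hπ₄.eval (a := j + 1)))))))

theorem menger_union [WellFoundedLT W] (hΛ : #W < #Λ) (hω : #W ^ ℵ₀ ≤ #W)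
    (U : GU (sys B hB).Cd) (S τ 𝓕 X : MU U) (h1 : IsTopology (El U) S τ)
    (h2 : SecondCountable (El U) (cl U om) τ)
    (h3 : ∀ Z, El U Z 𝓕 → Sub (El U) Z S ∧ Menger (El U) (cl U om) τ Z)
    (h4 : IsUnion (El U) X 𝓕) (h5 : CardLe (El U) 𝓕 (cl U (oN (#W).ord))) :
    Menger (El U) (cl U om) τ X := by
  intro 𝒰 C h6 h7
  obtain ⟨S, rfl⟩ := cl_surj S
  obtain ⟨τ, rfl⟩ := cl_surj τ
  obtain ⟨𝓕, rfl⟩ := cl_surj 𝓕
  obtain ⟨X, rfl⟩ := cl_surj X
  obtain ⟨𝒰, rfl⟩ := cl_surj 𝒰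
  obtain ⟨C, rfl⟩ := cl_surj C
  let s := sys B hB
  obtain ⟨b, hb⟩ := exists_baseSeq τ
  obtain ⟨Xs, hXs⟩ := exists_listing 𝓕 (b := (#W).ord) (ι := W) (by simp)
  obtain ⟨Kp, hKd, hK1, hK2⟩ := menger_intro τ X 𝒰 C b
  let Ψ : GU s.Cd → Prop := fun U => IsTopology (El U) (cl U S) (cl U τ) ∧ BaseSeq τ b U ∧
    (∀ Z, El U Z (cl U 𝓕) → Sub (El U) Z (cl U S) ∧ Menger (El U) (cl U om) (cl U τ) Z) ∧
    IsUnion (El U) (cl U X) (cl U 𝓕) ∧ CardLe (El U) (cl U 𝓕) (cl U (oN (#W).ord)) ∧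
    Covers τ X 𝒰 C U
  have : Dec Ψ := by unfold Ψ; infer_instance
  have hΨ : Ψ U := ⟨h1, hb U h2, h3, h4, h5, h6, h7⟩
  change Selects X 𝒰 U
  clear h1 h2 h3 h4 h5 h6 h7
  revert hΨ
  refine wlog_dense (fun k _ => capture (fun x : ℕ × ℕ => Kp x.1 x.2) k) U (lev_k0 U)
    fun U k₁ _ ⟨EK, hEK, hK⟩ hU => ?_
  let H := fun ξ => Gap τ (Xs ξ) b (fun U => Ψ U ∧ El U (cl U (Xs ξ)) (cl U 𝓕)) EK
  have hD : ∀ k, k₁ ≤ k → ∃ k', k ≤ k' ∧ ∃ d : Pt Λ W → ℕ → ℕ, Ms k'.1.A d ∧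
      (∀ᶠ G in k'.1.F, ∀ᶠ i in atTop, i ≤ d G i) ∧
      ∀ ξ, ∃ a, MsSet k'.1.A a ∧ H ξ k'.1 a ∧ ∀ᶠ G in k'.1.F, ∀ᶠ i in atTop, d G i ∈ a G := by
    intro k hk
    have hup : ∀ ξ k k' a, InK B k' → k ≤ k' → H ξ k a → H ξ k' a := by
      rintro ξ k k' a hk' hk ⟨h1, h2⟩
      exact ⟨hk', fun U x j hU => h2 U x j (hU.mono hk)⟩
    have hH : ∀ ξ, DenseAbove B k.1 (H ξ) := by
      intro ξ
      refine dense_gap S τ (Xs ξ) b _ (fun x => (hEK x).up hk)
        (fun U h => ⟨h.1.1, h.1.2.2.1 _ h.2⟩) fun U x n hU h hx => ?_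
      have h3 := hK1 U x n h.1.2.1 h.1.2.2.2.2.2 ((h.1.2.2.2.1 _).2 ⟨_, h.2, hx⟩)
      clear h hx
      revert hU
      exact Ex.elim U h3 fun U c h3 hU => Ex.intro c ⟨(hK (n, c) U (hU.mono hk)).1 h3.1, h3.2⟩
    obtain ⟨k', h1, h2⟩ := exists_canjar hΛ hω k.2 hup hH
    exact ⟨⟨k', h1⟩, h2⟩
  refine wlog_dense hD U hU fun U k hk ⟨d, hd1, hd2, hd3⟩ hU hΨ => ?_
  have hd : s.Ms k fun y => d y.1 := Ms.fst (s := objSys B hB) hd1
  refine hK2 (fun n m U => ev (fun y => d y.1 n = m) U) (fun U => lev k U ∧ Ψ U)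
    (fun U h => h.2.2.2.2.2.2) (fun U n h => wlog_val _ U h.1 (hd.eval n) fun U m _ h =>
      Ex.intro m h) (fun U n m m' h h' => by
        obtain ⟨y, h1, h2⟩ := (ev.and h h').exists
        exact h1.symm.trans h2)
    (fun U x ⟨hU, h⟩ hx => ?_) U ⟨hU, hΨ⟩
  obtain ⟨Z, h1, h2⟩ := (h.2.2.2.1 _).1 hx
  obtain ⟨Z, rfl⟩ := cl_surj Z
  have h3 := hXs U Z h.2.2.2.2.1 h1
  clear hx
  revert h2; revert h1; revert h; revert hU
  refine Ex.elim U h3 fun U ξ e hU h h1 h2 => ?_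
  rw [e] at h1 h2
  clear e
  obtain ⟨a, ha, ⟨_, h4⟩, h5⟩ := hd3 ξ
  let := s.m k
  have ha' : Measurable fun y : Pt Λ W × Om W => a y.1 :=
    measurable_set_iff.2 fun x => Ms.fst (s := objSys B hB) (k := k) (ha x)
  have h6 : ev (fun y => ∃ N, ∀ i, N ≤ i → i ≤ d y.1 i ∧ d y.1 i ∈ a y.1) U :=
    ev_of_ae hU (rand_fst (s := objSys B hB) ((hd2.and h5).mono fun G hG =>
      eventually_atTop.1 (hG.1.and hG.2)))
  have hd' : Measurable fun y : Pt Λ W × Om W => d y.1 := hd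
  have hm : ∀ N, Measurable fun y : Pt Λ W × Om W =>
      ∀ i, N ≤ i → i ≤ d y.1 i ∧ d y.1 i ∈ a y.1 := fun N =>
    Measurable.forall fun i => measurable_const.imp ((measurable_const.le' hd'.eval).and
      (measurable_app (f := fun y n => n ∈ a y.1) (measurable_set_iff.1 ha') hd'.eval))
  revert h2; revert h1; revert h
  refine ev_elim U hU hm h6 fun U N hU h6 h h1 h2 => ?_
  have h7 := h4 U x N hU ⟨h, h1⟩ h2
  clear h h1 h2
  revert h6; revert hU
  refine Ex.elim U h7 fun U t h7 hU h6 => ?_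
  revert h6; revert h7
  refine wlog_val (fun y => d y.1 t.1) U hU (hd.eval _) fun U m hU h8 h7 h6 =>
    Ex.intro (t.1, m, t.2.2) ⟨h8, ?_, (hK (t.1, t.2.2) U (hU.mono hk)).2
      (h7.1.imp fun _ h => h.2.2.2), h7.2⟩
  obtain ⟨y, h9, ⟨h10, h11, h12, -⟩, h13⟩ := (h8.and (h7.1.and h6)).exists
  exact h12.trans (h9 ▸ not_lt.1 fun h => h11 _ (h13 _ h10).1 h (h13 _ h10).2)

end Pool.Agent.Lib.MP_6245c4_gt
end

-- part Pool.Agent.Lib.MP_6245c4_gt.Cantor
section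

/-! The infinite subsets of `ω` are a union of Menger sets that is not Menger. -/

namespace Pool.Agent.Lib.MP_6245c4_gt

open Pool.Agent.Lib.MP_2739cb_lc Pool.Agent.Shared.RealForcing Set Filter MeasureTheory Sys

theorem menger_singleton {P : Type} [Preorder P] [OrderTop P] {U : GU P} {τ x Z : MU U}
    (hZ : ∀ z, El U z Z ↔ z = x) : Menger (El U) (cl U om) τ Z := by
  intro 𝒰 C h1 h2
  obtain ⟨τ, rfl⟩ := cl_surj τ
  obtain ⟨x, rfl⟩ := cl_surj x
  obtain ⟨Z, rfl⟩ := cl_surj Z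
  obtain ⟨𝒰, rfl⟩ := cl_surj 𝒰
  obtain ⟨C, rfl⟩ := cl_surj C
  choose V hV using fun n => exists_witness fun U V =>
    ∃ A, App (El U) (cl U 𝒰) (cl U (nn n)) A ∧ El U V A ∧ El U (cl U x) V
  let Ψ : GU P → Prop := fun U => Covers τ Z 𝒰 C U ∧ El U (cl U x) (cl U Z)
  have : Dec Ψ := by unfold Ψ; infer_instance
  have hΨ : Ψ U := ⟨⟨h1, h2⟩, (hZ _).2 rfl⟩
  replace hV := fun n U (h : Ψ U) => hV n U (by
    obtain ⟨A, h3, -⟩ := MU_zfc.app_total h.1.1 (el_nn_om n)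
    obtain ⟨W, h4⟩ := (h.1.2 _ A h3).2 _ h.2
    exact ⟨W, A, h3, h4⟩)
  refine ⟨_, _, isFun_seqNm fun n => pairNm (V n) (V n), fun n A F h3 h4 => ?_, fun z hz =>
    ⟨_, _, _, (app_seqNm _ 0).2 rfl, (el_pairNm _ _ _).2 (Or.inl rfl), ?_⟩⟩
  · obtain ⟨n, rfl⟩ := cl_surj n
    obtain ⟨A, rfl⟩ := cl_surj A
    obtain ⟨F, rfl⟩ := cl_surj F
    clear h1 h2 hZ
    revert h3; revert hΨ
    refine wlog_seq n F _ U h4 fun U n e e' h h3 => ?_
    rw [e] at h3
    rw [e']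
    obtain ⟨A', h5, h6, -⟩ := hV n U h
    refine ⟨fun z hz => ?_, isFinite_of_cover (fun _ => V n) 1 _ fun z hz => ⟨0, ?_⟩⟩
    · rw [el_pairNm, or_self] at hz
      rw [hz, MU_zfc.app_unique h.1.1 h3 h5]
      exact h6
    · rwa [el_pairNm, or_self] at hz
  · obtain ⟨_, -, -, h⟩ := hV 0 U hΨ
    exact (hZ z).1 hz ▸ h

variable {K Y : Type} [Preorder K] {s : Sys K Y}

theorem exists_badFamily (S τ : Nm s.Cd)
    (hS : ∀ U x, El U x (cl U S) ↔ Sub (El U) x (cl U om))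
    (hτ : ∀ U O, El U O (cl U τ) ↔ OpenSet (El U) (cl U om) O)
    (htop : ∀ U, IsTopology (El U) (cl U S) (cl U τ)) (U : GU s.Cd) :
    ∃ A : Nm s.Cd, BadFamily (El U) (cl U om) (cl U S) (cl U τ) (cl U A) := by
  obtain ⟨S', hS'⟩ := exists_pow S
  have hA := el_sepN (U := U)
    (fun U N => ∃ x, InfSub (El U) (cl U om) x ∧ ∀ z, El U z N ↔ z = x) S'
  let X := sepN (fun U x => InfSub (El U) (cl U om) x) S
  have hX : ∀ U x, El U x (cl U X) ↔ InfSub (El U) (cl U om) x := fun U x => by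
    rw [el_sepN fun U x => InfSub (El U) (cl U om) x, hS]
    exact ⟨fun h => h.2, fun h => ⟨h.1, h⟩⟩
  refine ⟨sepN (fun U N => ∃ x, InfSub (El U) (cl U om) x ∧ ∀ z, El U z N ↔ z = x) S',
    fun Z hZ => ?_, cl U X, fun x => ⟨fun hx => ?_, ?_⟩, fun hM => ?_⟩
  · obtain ⟨h1, x, -, h2⟩ := (hA Z).1 hZ
    exact ⟨(hS' U Z).1 h1, menger_singleton h2⟩
  · obtain ⟨N, hN⟩ := MU_zfc.pairing x x
    simp only [or_self] at hN
    exact ⟨N, (hA N).2 ⟨(hS' U N).2 fun z hz => (hS U z).2 ((hN z).1 hz ▸ ((hX U x).1 hx).1), x,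
      (hX U x).1 hx, hN⟩, (hN x).2 rfl⟩
  · rintro ⟨N, h1, h2⟩
    obtain ⟨-, y, h3, h4⟩ := (hA N).1 h1
    exact (hX U x).2 ((h4 x).1 h2 ▸ h3)
  let b : ℕ → Nm s.Cd := fun k => sepN (fun U x => El U (cl U (nn k)) x) S
  have hb : ∀ k U x, Bs τ b k x U ↔ Sub (El U) (cl U x) (cl U om) ∧ El U (cl U (nn k)) (cl U x) := by
    have h1 : ∀ k U x, El U x (cl U (b k)) ↔ Sub (El U) x (cl U om) ∧ El U (cl U (nn k)) x :=
      fun k U x => by rw [el_sepN fun U x => El U (cl U (nn k)) x, hS]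
    refine fun k U x => (and_iff_right ((hτ U _).2 fun y hy => ?_)).trans (h1 k U _)
    exact ⟨((h1 k U y).1 hy).1, _, el_nn_om (k + 1), fun z hz h =>
      (h1 k U z).2 ⟨hz, (h _ (el_nn.2 (Nat.lt_succ_self k))).2 ((h1 k U y).1 hy).2⟩⟩
  obtain ⟨Γ, _, h1, h2⟩ := menger_array S τ X b
    (fun n t _ => t.2.card = n + 1 ∧ ∀ i ∈ t.2, i < t.1)
    (fun U => Menger (El U) (cl U om) (cl U τ) (cl U X))
    (fun U h => ⟨htop U, fun x hx => (hS U x).2 ((hX U x).1 hx).1, h⟩) (by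
      intro U x n _ hx
      rw [hX] at hx
      have key : ∀ n, Ex (fun (t : ℕ × Finset ℕ) U => (t.2.card = n ∧ ∀ i ∈ t.2, i < t.1) ∧
          ∀ k : t.2, Bs τ b k x U) U := by
        intro n
        induction n with
        | zero => exact Ex.intro (0, ∅) ⟨by simp, fun k => absurd k.2 (Finset.notMem_empty _)⟩
        | succ n ih =>
          revert hx
          refine Ex.elim U ih fun U t ht hx => ?_
          obtain ⟨m, h3, h4⟩ := hx.2 _ (el_nn_om t.1)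
          obtain ⟨m, rfl⟩ := cl_surj m
          revert h4; revert h3; revert ht; revert hx
          intro hx ht h3
          have h5 := hx.1 _ h3
          revert h3; revert ht; revert hx
          refine wlog_nat m U h5 fun U m' e hx ht h3 h4 => ?_
          rw [e] at h3 h4
          have h6 := ordLe_nn.1 h4
          refine Ex.intro (m' + 1, insert m' t.2) ⟨⟨?_, fun i hi => ?_⟩, fun k => ?_⟩
          · rw [Finset.card_insert_of_notMem fun h => (ht.1.2 _ h).not_ge h6, ht.1.1]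
          · rcases Finset.mem_insert.1 hi with h | h
            · exact h ▸ Nat.lt_succ_self _
            · exact (ht.1.2 i h).trans_le (h6.trans (Nat.le_succ _))
          · rcases Finset.mem_insert.1 k.2 with h | h
            · rw [h]; exact (hb _ U x).2 ⟨hx.1, h3⟩
            · exact ht.2 ⟨k, h⟩
      exact key (n + 1))
  clear hA
  revert hM
  refine wlog_dense (fun k _ => capture (fun x : ℕ × ℕ => Γ x.1 x.2) k) U (lev_k0 U)
    fun U k _ ⟨E, hE, hΓ⟩ hU hM => ?_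
  let := s.m k
  let g : Y → ℕ → ℕ := fun y n => sInf {m | E (n, m) y}
  have hg : ∀ n, Measurable fun y => g y n := fun n => measurable_natInf fun m => hE _
  let h : Y → ℕ → ℕ := fun y n => ∑ i ∈ Finset.range (n + 1), g y i + n
  have hh : ∀ n, Measurable fun y => h y n := fun n =>
    (Finset.measurable_sum _ fun i _ => hg i).add_const n
  have h3 : s.Ms k fun y => range (h y) :=
    measurable_set_iff.2 fun x => show Measurable fun y => ∃ l, h y l = x by fun_prop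
  have h4 := h2 U _ hM ((hX U _).2 ((infSub_sbNm hU h3).2
    (ev_true U fun y n => ⟨h y n, Nat.le_add_left _ _, n, rfl⟩)))
  revert hM; revert hU
  refine Ex.elim U h4 fun U n h4 hU hM => ?_
  have h5 : ev (fun y => ∃ m, E (n, m) y ∧ g y n = m) U := by
    have h5 := h1 U n hM
    clear hM h4
    revert hU
    exact Ex.elim U h5 fun U m h5 hU => ((hΓ (n, m) U hU).1 h5).imp fun y hy =>
      ⟨_, Nat.sInf_mem (s := {m | E (n, m) y}) ⟨m, hy⟩, rfl⟩
  clear hM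
  revert h4
  refine ev_elim U hU (fun m => (hE _).and ((hg n).eq_const m)) h5 fun U m hU h5 h4 => ?_
  have h6 := h4.elim m ((hΓ (n, m) U hU).2 (h5.imp fun _ h => h.1))
  clear h4 hU
  revert h5
  refine Ex.elim U h6 fun U t h6 h5 => ?_
  obtain ⟨y, h7, h8⟩ := (h5.and (ev_finite fun k : t.2 =>
    el_sbNm.1 ((hb _ U _).1 (h6.2.2 k)).2)).exists
  have h9 : t.2 ⊆ (Finset.range n).image (h y) := fun i hi => by
    obtain ⟨l, rfl⟩ := h8 ⟨i, hi⟩
    refine Finset.mem_image_of_mem _ (Finset.mem_range.2 (not_le.1 fun hl => ?_))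
    have h10 : g y n ≤ ∑ i ∈ Finset.range (l + 1), g y i :=
      Finset.single_le_sum (f := g y) (fun _ _ => Nat.zero_le _)
        (Finset.mem_range.2 (Nat.lt_succ_of_le hl))
    have h11 := h6.2.1.2 _ hi
    have h12 := h6.1
    simp only [h] at h11
    omega
  have h10 := (Finset.card_le_card h9).trans Finset.card_image_le
  rw [h6.2.1.1, Finset.card_range] at h10
  omega

end Pool.Agent.Lib.MP_6245c4_gt
end
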